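import Mathlib
import Pool.Agent.V11306.Cao7

/-!
# Cao's inequality for continued fractions and Jacobi symbols

For every odd `p > 3` with `p ≡ 3 (mod 4)` one has `N̄(p) ≥ N(p) ≥ 2`, and more precisely
`N̄(p) - N(p) = 2 ∑_{m < p/2} (m / p)`.
-/

set_option autoImplicit false

namespace Pool.Agent.Results.MP_54f1ce_nt.Cao

/-- the value of a finite simple continued fraction `[c₁, c₂, …]` -/
def cfVal : List ℕ → ℚ
  | [] => 0
  | [c] => c
  | c :: d :: l => c + 1 / cfVal (d :: l)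

/-- `c` is the finite simple continued fraction expansion of `p / n`: all partial quotients are
positive, the last one is larger than `1`, and the value is `p / n` -/
def IsCF (p n : ℕ) (c : List ℕ) : Prop :=
  (∀ x ∈ c, 0 < x) ∧ (∃ z, c.getLast? = some z ∧ 1 < z) ∧ cfVal c = (p : ℚ) / n

/-- `M_p`: the `0 < n < p` with `(n / p) = (-1) ^ λ(n)` -/
def M (p : ℕ) : Set ℕ :=
  {n | 0 < n ∧ n < p ∧ ∃ c, IsCF p n c ∧ jacobiSym n p = (-1) ^ c.length}

/-- the set of `0 < n < p` with `(n / p) = (-1) ^ (λ(n) + 1)` -/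
def Mbar (p : ℕ) : Set ℕ :=
  {n | 0 < n ∧ n < p ∧ ∃ c, IsCF p n c ∧ jacobiSym n p = (-1) ^ (c.length + 1)}

lemma cfVal_eq (c : List ℕ) : cfVal c = Pool.Agent.V11306.Cao.cfVal c := by
  induction c with
  | nil => rfl
  | cons a l ih =>
    cases l with
    | nil => rfl
    | cons b l => rw [cfVal, Pool.Agent.V11306.Cao.cfVal, ih]

lemma isCF_iff (p n : ℕ) (c : List ℕ) : IsCF p n c ↔ Pool.Agent.V11306.Cao.IsCF p n c := by
  rw [IsCF, Pool.Agent.V11306.Cao.IsCF, cfVal_eq]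

lemma M_eq (p : ℕ) : M p = Pool.Agent.V11306.Cao.M p := by
  ext n
  simp only [M, Pool.Agent.V11306.Cao.M, isCF_iff]

lemma Mbar_eq (p : ℕ) : Mbar p = Pool.Agent.V11306.Cao.Mbar p := by
  ext n
  simp only [Mbar, Pool.Agent.V11306.Cao.Mbar, isCF_iff]

/-- Every `p / n` with `0 < n < p` has exactly one expansion; and for every odd `p > 3` with
`p ≡ 3 (mod 4)` one has `N̄(p) ≥ N(p) ≥ 2`, the difference being twice the sum of the Jacobi
symbols over the lower half. -/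
theorem result :
    (∀ p n : ℕ, 0 < n → n < p → ∃! c, IsCF p n c) ∧
    ∀ p : ℕ, Odd p → 3 < p → p % 4 = 3 →
      (Mbar p).ncard ≥ (M p).ncard ∧ (M p).ncard ≥ 2 ∧
      ((Mbar p).ncard : ℤ) - (M p).ncard =
        2 * ∑ m ∈ Finset.range ((p + 1) / 2), jacobiSym m p := by
  refine ⟨fun p n h0 h1 => ?_, fun p _ hp3 h3 => ?_⟩
  · simp only [isCF_iff]
    exact Pool.Agent.V11306.Cao.cf_existsUnique p n h0 h1
  · rw [M_eq, Mbar_eq]
    exact ⟨Pool.Agent.V11306.Cao.N_le p h3, Pool.Agent.V11306.Cao.two_le_N p h3 hp3,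
      Pool.Agent.V11306.Cao.diff p h3⟩

end Pool.Agent.Results.MP_54f1ce_nt.Cao
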